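import Pool.Agent.V5helper79.PQ.Stm
import Pool.Agent.V5helper79.PP.Simple

/-! Project PQ: the graph of a polyhedron is connected. -/

set_option autoImplicit false

namespace Pool.Agent.V5helper43.PQ

open Pool.Agent.R118.PM Filter Topology Module

variable {ι : Type} [Fintype ι]

/-- an extreme point of a plane section of the body is determined by the panels which contain it -/
theorem sec_span {P : Pool.Agent.R118.PM.Poly ι} {v a : E3} {c : ℝ}
    (hv : v ∈ ({x | x ∈ P.body ∧ inner ℝ a x = c} : Set E3).extremePoints ℝ) {w : E3}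
    (hw : ∀ l, v ∈ P.face l → inner ℝ (P.n l) w = 0) (haw : inner ℝ a w = 0) : w = 0 := by
  have hvb : v ∈ P.body := hv.1.1
  have hva : inner ℝ a v = c := hv.1.2
  have hev : ∀ᶠ ε in 𝓝 (0 : ℝ), ∀ l, v ∉ P.face l → inner ℝ (P.n l) (v + ε • w) < P.b l := by
    rw [eventually_all]
    intro l
    by_cases hl : v ∈ P.face l
    · exact Eventually.of_forall fun ε h => absurd hl h
    · have h1 : inner ℝ (P.n l) (v + (0 : ℝ) • w) < P.b l := by
        rw [zero_smul, add_zero]
        exact lt_of_le_of_ne (hvb l) fun h => hl ⟨hvb, h⟩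
      have h2 : ContinuousAt (fun ε : ℝ => inner ℝ (P.n l) (v + ε • w)) 0 := by fun_prop
      filter_upwards [h2.eventually_lt_const h1] with ε hε _ using hε
  rw [Metric.eventually_nhds_iff] at hev
  obtain ⟨δ, hδ, hε⟩ := hev
  have hin : ∀ ε : ℝ, |ε| < δ → v + ε • w ∈ ({x | x ∈ P.body ∧ inner ℝ a x = c} : Set E3) := by
    intro ε hε'
    refine ⟨fun l => ?_, ?_⟩
    · by_cases hl : v ∈ P.face l
      · rw [inner_add_right, inner_smul_right, hw l hl, mul_zero, add_zero]
        exact hvb l
      · exact (hε (by rw [dist_zero_right]; exact hε') l hl).le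
    · rw [inner_add_right, inner_smul_right, haw, mul_zero, add_zero, hva]
  have h1 := hin (δ / 2) (by rw [abs_of_pos (by positivity)]; linarith)
  have h2 := hin (-(δ / 2)) (by rw [abs_neg, abs_of_pos (by positivity)]; linarith)
  have h3 : v ∈ openSegment ℝ (v + (δ / 2) • w) (v + (-(δ / 2)) • w) := by
    refine ⟨1 / 2, 1 / 2, by norm_num, by norm_num, by norm_num, ?_⟩
    module
  have h4 := (mem_extremePoints.1 hv).2 _ h1 _ h2 h3
  have h5 : v + (δ / 2) • w = v := by
    exact h4.1
  have h6 : (δ / 2) • w = 0 := add_eq_left.1 h5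
  rcases smul_eq_zero.1 h6 with h | h
  · linarith
  · exact h

/-- there is a nonzero vector orthogonal to two given ones -/
theorem exists_orth (N a : E3) : ∃ u : E3, u ≠ 0 ∧ inner ℝ N u = 0 ∧ inner ℝ a u = 0 := by
  classical
  have h1 : finrank ℝ (Submodule.span ℝ ({N, a} : Set E3)) ≤ 2 := by
    have h2 := finrank_span_le_card (R := ℝ) ({N, a} : Set E3)
    refine h2.trans ?_
    rw [Set.toFinset_insert, Set.toFinset_singleton]
    exact Finset.card_le_two
  have h2 := (Submodule.span ℝ ({N, a} : Set E3)).finrank_add_finrank_orthogonal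
  rw [finrank_euclideanSpace, Fintype.card_fin] at h2
  have h3 : 0 < finrank ℝ (Submodule.span ℝ ({N, a} : Set E3))ᗮ := by omega
  have h4 : (Submodule.span ℝ ({N, a} : Set E3))ᗮ ≠ ⊥ := by
    intro h
    rw [h, finrank_bot] at h3
    exact lt_irrefl _ h3
  obtain ⟨u, hu, hu0⟩ := (Submodule.ne_bot_iff _).1 h4
  rw [Submodule.mem_orthogonal] at hu
  exact ⟨u, hu0, hu N (Submodule.subset_span (by simp)), hu a (Submodule.subset_span (by simp))⟩

/-- a linear function which is larger at some point of a compact convex set than a number is also larger at some extreme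
point -/
theorem exists_extreme {K : Set E3} (hK : IsCompact K) (hc : Convex ℝ K) {b : E3} {r : ℝ} {y : E3} (hy : y ∈ K)
    (h : r < inner ℝ b y) : ∃ z ∈ K.extremePoints ℝ, r < inner ℝ b z := by
  by_contra hcon
  push Not at hcon
  have hcl : IsClosed {x : E3 | inner ℝ b x ≤ r} := isClosed_le (by fun_prop) continuous_const
  have hcv : Convex ℝ {x : E3 | inner ℝ b x ≤ r} := by
    intro x hx z hz s t hs ht hst
    show inner ℝ b (s • x + t • z) ≤ r
    rw [inner_add_right, inner_smul_right, inner_smul_right]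
    have h1 := mul_le_mul_of_nonneg_left (show inner ℝ b x ≤ r from hx) hs
    have h2 := mul_le_mul_of_nonneg_left (show inner ℝ b z ≤ r from hz) ht
    calc s * inner ℝ b x + t * inner ℝ b z ≤ s * r + t * r := add_le_add h1 h2
      _ = r := by rw [← add_mul, hst, one_mul]
  rw [← closure_convexHull_extremePoints hK hc] at hy
  have h1 : inner ℝ b y ≤ r := (closure_minimal (convexHull_min hcon hcv) hcl) hy
  linarith

theorem t_CON : Pool.Agent.V5helper79.PQ.S_CON := by
  classical
  intro ι _ P hP G hG hex w0 hw0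
  by_contra hw0G
  -- the vertices are finitely many
  have hfin : (P.body.extremePoints ℝ).Finite := by
    refine Set.Finite.of_injOn (f := fun v => {l | v ∈ P.face l}) (t := Set.univ) (fun _ _ => Set.mem_univ _) ?_
      (Set.toFinite _)
    intro v hv v' hv' h
    have h1 : ∀ l, v ∈ P.face l ↔ v' ∈ P.face l := fun l => Set.ext_iff.1 h l
    rw [← sub_eq_zero]
    refine Pool.Agent.V5helper79.PP.Conv.normals_span hv fun l hl => ?_
    rw [inner_sub_right, hl.2, ((h1 l).1 hl).2, sub_self]
  obtain ⟨v1, hv1, hv1G⟩ := hex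
  obtain ⟨v, hvm, hmax⟩ := Set.exists_max_image {v | v ∈ P.body.extremePoints ℝ ∧ v ∈ G}
    (fun x => (inner ℝ (nrm P w0) x : ℝ)) (hfin.subset fun x hx => hx.1) ⟨v1, hv1, hv1G⟩
  obtain ⟨hv, hvG⟩ := hvm
  have hne : v ≠ w0 := fun h => hw0G (h ▸ hvG)
  have hlt : inner ℝ (nrm P w0) v < inner ℝ (nrm P w0) w0 := nrm_lt P hw0 hv.1 hne
  obtain ⟨c, hc, h2, -, -⟩ := exists_level hP hv
  -- `w0` is below the level
  have hwc : inner ℝ (nrm P v) w0 < c := by
    by_contra hcon
    apply hne
    rw [← sub_eq_zero]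
    refine Pool.Agent.V5helper79.PP.Conv.normals_span hw0 fun l hl => ?_
    have h3 : v ∈ P.face l := by
      by_contra h4
      exact hcon (h2 l h4 w0 hl)
    rw [inner_sub_right, hl.2, h3.2, sub_self]
  -- the section
  obtain ⟨Q, hQ⟩ : ∃ Q : Set E3, Q = {x | x ∈ P.body ∧ inner ℝ (nrm P v) x = c} := ⟨_, rfl⟩
  have hQcl : IsClosed Q := by
    rw [hQ]
    exact (body_closed P).inter (isClosed_eq (by fun_prop) continuous_const)
  have hQcpt : IsCompact Q := by
    refine Metric.isCompact_of_isClosed_isBounded hQcl (hP.bounded.subset ?_)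
    rw [hQ]
    exact fun x hx => hx.1
  have hQc : Convex ℝ Q := by
    rw [hQ]
    intro x hx y hy s t hs ht hst
    refine ⟨body_convex P hx.1 hy.1 hs ht hst, ?_⟩
    rw [inner_add_right, inner_smul_right, inner_smul_right, hx.2, hy.2, ← add_mul, hst, one_mul]
  obtain ⟨s, hs⟩ : ∃ s : ℝ, s = (inner ℝ (nrm P v) v - c) / (inner ℝ (nrm P v) v - inner ℝ (nrm P v) w0) := ⟨_, rfl⟩
  have hden : 0 < (inner ℝ (nrm P v) v - inner ℝ (nrm P v) w0 : ℝ) := by linarith
  have hs0 : 0 < s := by
    rw [hs]
    exact div_pos (by linarith) hden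
  have hs1 : s ≤ 1 := by
    rw [hs, div_le_one hden]
    linarith
  have hy0 : v + s • (w0 - v) ∈ Q := by
    rw [hQ]
    refine ⟨?_, ?_⟩
    · have := body_convex P hv.1 hw0.1 (sub_nonneg.2 hs1) hs0.le (by ring)
      convert this using 1
      module
    · rw [inner_add_right, inner_smul_right, inner_sub_right, hs]
      field_simp
      ring
  have hy0' : inner ℝ (nrm P w0) v < inner ℝ (nrm P w0) (v + s • (w0 - v)) := by
    rw [inner_add_right, inner_smul_right, inner_sub_right]
    nlinarith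
  obtain ⟨y, hy, hyl⟩ := exists_extreme hQcpt hQc hy0 hy0'
  have hyQ : y ∈ {x | x ∈ P.body ∧ inner ℝ (nrm P v) x = c} := hQ ▸ hy.1
  rw [hQ] at hy
  have hcross : ∀ l, y ∈ P.face l → v ∈ P.face l := by
    intro l hl
    by_contra h4
    exact lt_irrefl _ (hyQ.2 ▸ h2 l h4 y hl)
  -- two panels
  have htwo : ∃ i j, i ≠ j ∧ y ∈ P.face i ∧ y ∈ P.face j := by
    by_contra hcon
    push Not at hcon
    have hN : ∃ N : E3, ∀ l, y ∈ P.face l → P.n l = N := by
      by_cases h : ∃ i, y ∈ P.face i
      · obtain ⟨i, hi⟩ := h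
        refine ⟨P.n i, fun l hl => ?_⟩
        by_cases hli : l = i
        · rw [hli]
        · exact absurd hi (hcon l i hli hl)
      · push Not at h
        exact ⟨0, fun l hl => absurd hl (h l)⟩
    obtain ⟨N, hN⟩ := hN
    obtain ⟨u, hu0, hu1, hu2⟩ := exists_orth N (nrm P v)
    exact hu0 (sec_span hy (fun l hl => by rw [hN l hl]; exact hu1) hu2)
  obtain ⟨i, j, hij, hyi, hyj⟩ := htwo
  have hcl : IsClosed (P.face i ∩ P.face j) := (face_closed P i).inter (face_closed P j)
  have hcpt : IsCompact (P.face i ∩ P.face j) :=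
    Metric.isCompact_of_isClosed_isBounded hcl
      (hP.bounded.subset (Set.inter_subset_left.trans (face_sub P i)))
  have hconv : Convex ℝ (P.face i ∩ P.face j) := (face_convex P i).inter (face_convex P j)
  obtain ⟨z, hz, hzl⟩ := exists_extreme hcpt hconv ⟨hyi, hyj⟩ hyl
  have hzb : z ∈ P.body.extremePoints ℝ :=
    ((face_extreme P i).inter (face_extreme P j)).extremePoints_subset_extremePoints hz
  have hzG : z ∈ G := hG v hv z hzb i j hij ⟨hcross i hyi, hcross j hyj⟩ hz.1 hvG
  have h5 := hmax z ⟨hzb, hzG⟩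
  linarith

end Pool.Agent.V5helper43.PQ
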